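import Pool.Agent.ANO5.End.Coord
import Pool.Agent.ANO5.A3.Tot.Hom

/-!
# ANO5, module End: the contradiction at a vertex, in the product situation

`RT w c`: `c` is a level of the torus functions which belongs to a periodic point of the model over
the regular points `w i`.
-/

set_option autoImplicit false
set_option linter.unusedSectionVars false

open scoped UpperHalfPlane MatrixGroups
open Set Filter Topology

namespace Pool.Agent.ANO5.A3.End

open Pool.Agent.ANO3 Pool.Agent.ANO3.Tree Pool.Agent.ANO3.End Pool.Agent.ANO5.A1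
  Pool.Agent.ANO5.A2 Pool.Agent.ANO5.End

variable {r : ℕ} {VU VS : Type} [NormedAddCommGroup VU] [NormedSpace ℝ VU]
  [NormedAddCommGroup VS] [NormedSpace ℝ VS]

/-- A compact neighbourhood whose frontier avoids a countable set. -/
theorem exists_ball {Z : Type*} [MetricSpace Z] [ProperSpace Z] (b : Z) {V : Set Z}
    (hV : V ∈ 𝓝 b) {C : Set Z} (hC : C.Countable) :
    ∃ K : Set Z, IsCompact K ∧ K ⊆ V ∧ b ∈ interior K ∧ ∀ x ∈ frontier K, x ∉ C := by
  obtain ⟨ε, hε, hb⟩ := Metric.nhds_basis_closedBall.mem_iff.1 hV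
  have h1 : ((fun x => dist x b) '' C).Countable := hC.image _
  obtain ⟨ρ, hρ, h2, h3⟩ := (h1.dense_compl ℝ).exists_between hε
  refine ⟨Metric.closedBall b ρ, isCompact_closedBall b ρ,
    (Metric.closedBall_subset_closedBall h3.le).trans hb, ?_, ?_⟩
  · exact Metric.ball_subset_interior_closedBall (Metric.mem_ball_self h2)
  · intro x hx hxC
    have h4 := Metric.frontier_closedBall_subset_sphere hx
    exact hρ ⟨x, hxC, h4⟩

variable {S : Fin r → SurfaceMap} {F : ∀ i, Flat (S i)}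

theorem reg_update {κ : Fin r → ℍ} {i₀ : Fin r} (hκ : ∀ i, i ≠ i₀ → (F i).Reg (κ i)) {z : ℍ}
    (hz : (F i₀).Reg z) (i : Fin r) : (F i).Reg (Function.update κ i₀ z i) := by
  by_cases hi : i = i₀
  · subst hi
    rw [Function.update_self]
    exact hz
  · rw [Function.update_of_ne hi]
    exact hκ i hi

variable [Fib] {T₀ T : X r ≃ₜ X r} {TU : X r → VU} {TS : X r → VS}

variable (F T TU TS) in
/-- The points near the type `κ` with a level near `c` are in a compact set, up to deck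
transformations which preserve the type and the torus functions. -/
def Cocpt (κ : Fin r → ℍ) (c : VU × VS) : Prop :=
  ∃ ε > 0, ∃ K : Set (X r), IsCompact K ∧ ∀ x : X r,
    (∀ i, DU F T i (Sum.inl (κ i)) (Sum.inr x) ≤ ε ∧ DS F T i (Sum.inl (κ i)) (Sum.inr x) ≤ ε) →
    dist (TU x) c.1 ≤ ε → dist (TS x) c.2 ≤ ε →
    ∃ (γ : Fin r → SL(2, ℝ)) (δ : Equiv.Perm Fib.W), InΓ S γ ∧ δ ∈ Fib.Γ ∧
      (∀ i, (F i).Reg (κ i) → γ i = 1) ∧ (∀ i, (F i).Eqv (κ i) (γ i • κ i)) ∧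
      (∀ y, TU (dk γ δ y) = TU y ∧ TS (dk γ δ y) = TS y) ∧ dk γ δ x ∈ K

variable (F T TU TS) in
/-- Points which are close to each other have brackets. -/
def Bracket : Prop :=
  ∀ b : X r, ∃ V ∈ 𝓝 b, ∀ x ∈ V, ∀ y ∈ V, ∃ p : X r, (∀ i,
    DU F T i (Sum.inr x) (Sum.inr p) = 0 ∧ DS F T i (Sum.inr y) (Sum.inr p) = 0) ∧
      TU p = TU x ∧ TS p = TS y

/-- Deck transformations which preserve the levels act on the sets of points of a type. -/
theorem NL_dk (h : Setting S T₀ T) {γ : Fin r → SL(2, ℝ)} (hγ : InΓ S γ)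
    {δ : Equiv.Perm Fib.W} (hδ : δ ∈ Fib.Γ)
    (hT : ∀ y, TU (dk γ δ y) = TU y ∧ TS (dk γ δ y) = TS y) (w : Fin r → ℍ) (c : VU × VS)
    (x : X r) : dk γ δ x ∈ NL F T TU TS (fun i => γ i • w i) (fun i => γ i • w i) c ↔
      x ∈ NL F T TU TS w w c := by
  change (dk γ δ x ∈ NN F T _ _ ∧ TU (dk γ δ x) = c.1 ∧ TS (dk γ δ x) = c.2) ↔
    (x ∈ NN F T w w ∧ TU x = c.1 ∧ TS x = c.2)
  rw [(hT x).1, (hT x).2, mem_NN_dk (F := F) h hγ hδ w w x]

theorem NL_dk_eq (h : Setting S T₀ T) {γ : Fin r → SL(2, ℝ)} (hγ : InΓ S γ)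
    {δ : Equiv.Perm Fib.W} (hδ : δ ∈ Fib.Γ)
    (hT : ∀ y, TU (dk γ δ y) = TU y ∧ TS (dk γ δ y) = TS y) {w : Fin r → ℍ} {c : VU × VS}
    {q : X r} (hq : NL F T TU TS w w c = {q}) :
    NL F T TU TS (fun i => γ i • w i) (fun i => γ i • w i) c = {dk γ δ q} := by
  ext y
  have e : dk γ δ (dk (fun i => (γ i)⁻¹) δ⁻¹ y) = y := dk_inv' γ δ y
  rw [← e, NL_dk h hγ hδ hT, hq, mem_singleton_iff, mem_singleton_iff]
  constructor
  · intro h1
    rw [h1]
  · intro h1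
    have h2 := congrArg (dk (fun i => (γ i)⁻¹) δ⁻¹) h1
    rwa [dk_inv, dk_inv] at h2

/-- The points over the translates of the points of the corner converge. -/
theorem exists_points (h : Setting S T₀ T) (i₀ : Fin r) {κ : Fin r → ℍ} {b₀ : ℍ}
    (hb : (F i₀).Corner (κ i₀) b₀) (hκ : ∀ i, i ≠ i₀ → (F i).Reg (κ i)) (c : VU × VS)
    (RT : (Fin r → ℍ) → VU × VS → Prop)
    (hd : ∀ w : Fin r → ℍ, (∀ i, (F i).Reg (w i)) → Dense {c | RT w c})
    (hN : ∀ w : Fin r → ℍ, (∀ i, (F i).Reg (w i)) → ∀ c, RT w c →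
      ∃ q, NL F T TU TS w w c = {q})
    (hcpt : Cocpt F T TU TS κ c) :
    ∃ (z : ℕ → ℍ) (γ : ℕ → SL(2, ℝ)) (d : ℕ → VU × VS) (x : ℕ → X r) (b : X r),
      (∀ k, (F i₀).Reg (z k)) ∧
      (∀ k, Btw (F i₀).du (κ i₀) (z k) b₀) ∧ (∀ k, Btw (F i₀).ds (κ i₀) (z k) b₀) ∧
      Tendsto (fun k => (F i₀).du (κ i₀) (z k)) atTop (𝓝 0) ∧
      Tendsto (fun k => (F i₀).ds (κ i₀) (z k)) atTop (𝓝 0) ∧
      (∀ k, γ k ∈ (S i₀).Γ) ∧ (∀ k, (F i₀).Eqv (κ i₀) (γ k • κ i₀)) ∧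
      Tendsto d atTop (𝓝 c) ∧ Tendsto x atTop (𝓝 b) ∧
      ∀ k, NL F T TU TS (Function.update κ i₀ (γ k • z k)) (Function.update κ i₀ (γ k • z k))
        (d k) = {x k} := by
  obtain ⟨z, hz, hzu, hzs⟩ := hb.seq
  have hlev : ∀ n : ℕ, ∃ c', RT (Function.update κ i₀ (z n)) c' ∧
      dist c' c < 1 / ((n : ℝ) + 1) := fun n => by
    obtain ⟨c', h1, h2⟩ := (hd _ (reg_update hκ (hz n).1)).exists_dist_lt c
      (Nat.one_div_pos_of_nat (α := ℝ) (n := n))
    exact ⟨c', h1, by rwa [dist_comm]⟩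
  choose d hd1 hd2 using hlev
  have hdlim : Tendsto d atTop (𝓝 c) := by
    rw [tendsto_iff_dist_tendsto_zero]
    exact squeeze_zero (fun k => dist_nonneg) (fun k => (hd2 k).le)
      tendsto_one_div_add_atTop_nhds_zero_nat
  choose q hq using fun n => hN (Function.update κ i₀ (z n)) (reg_update hκ (hz n).1) (d n)
    (hd1 n)
  obtain ⟨ε, hε, K, hK, hx⟩ := hcpt
  have hmem : ∀ n, q n ∈ NL F T TU TS (Function.update κ i₀ (z n))
      (Function.update κ i₀ (z n)) (d n) := fun n => by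
    rw [hq]
    exact mem_singleton _
  have hqε : ∀ᶠ n in atTop, (∀ i, DU F T i (Sum.inl (κ i)) (Sum.inr (q n)) ≤ ε ∧
      DS F T i (Sum.inl (κ i)) (Sum.inr (q n)) ≤ ε) ∧ dist (TU (q n)) c.1 ≤ ε ∧
        dist (TS (q n)) c.2 ≤ ε := by
    have hd3 : ∀ᶠ n in atTop, dist (d n) c < ε :=
      (tendsto_iff_dist_tendsto_zero.1 hdlim).eventually (gt_mem_nhds hε)
    filter_upwards [hzu.eventually (gt_mem_nhds hε), hzs.eventually (gt_mem_nhds hε), hd3]
      with n h1 h2 h7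
    refine ⟨fun i => ?_, ?_, ?_⟩
    · have h3 := (hmem n).1 i
      by_cases hi : i = i₀
      · subst hi
        rw [Function.update_self] at h3
        have h4 := (isTree_DU (F := F) h i).triangle (Sum.inl (κ i)) (Sum.inl (z n))
          (Sum.inr (q n))
        have h5 := (isTree_DS (F := F) h i).triangle (Sum.inl (κ i)) (Sum.inl (z n))
          (Sum.inr (q n))
        rw [DU_inl, h3.1] at h4
        rw [DS_inl, h3.2] at h5
        exact ⟨by linarith, by linarith⟩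
      · rw [Function.update_of_ne hi] at h3
        rw [h3.1, h3.2]
        exact ⟨hε.le, hε.le⟩
    · rw [(hmem n).2.1]
      rw [Prod.dist_eq] at h7
      exact (le_max_left _ _).trans h7.le
    · rw [(hmem n).2.2]
      rw [Prod.dist_eq] at h7
      exact (le_max_right _ _).trans h7.le
  obtain ⟨n₀, hn₀⟩ := eventually_atTop.1 hqε
  choose γ δ hγ1 hδ hγ2 hγ3 hT hγ5 using fun n : ℕ => hx (q (n + n₀))
    (hn₀ (n + n₀) (Nat.le_add_left _ _)).1 (hn₀ (n + n₀) (Nat.le_add_left _ _)).2.1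
    (hn₀ (n + n₀) (Nat.le_add_left _ _)).2.2
  obtain ⟨b, -, φ, hφ, hlim⟩ := hK.tendsto_subseq hγ5
  have hφ' : Tendsto (fun k => φ k + n₀) atTop atTop :=
    tendsto_atTop_mono (fun k => Nat.le_add_right _ _) hφ.tendsto_atTop
  refine ⟨fun k => z (φ k + n₀), fun k => γ (φ k) i₀, fun k => d (φ k + n₀),
    fun k => dk (γ (φ k)) (δ (φ k)) (q (φ k + n₀)), b, fun k => (hz _).1,
    fun k => (hz _).2.1, fun k => (hz _).2.2, hzu.comp hφ', hzs.comp hφ', fun k => hγ1 _ _,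
    fun k => hγ3 _ _, hdlim.comp hφ', hlim, fun k => ?_⟩
  have e : (fun i => γ (φ k) i • Function.update κ i₀ (z (φ k + n₀)) i) =
      Function.update κ i₀ (γ (φ k) i₀ • z (φ k + n₀)) := by
    funext i
    by_cases hi : i = i₀
    · subst hi
      rw [Function.update_self, Function.update_self]
    · rw [Function.update_of_ne hi, Function.update_of_ne hi, hγ2 _ _ (hκ i hi), one_smul]
  rw [← e]
  exact NL_dk_eq h (hγ1 (φ k)) (hδ (φ k)) (hT (φ k)) (hq _)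

/-- The contradiction at a vertex. -/
theorem concrete (h : Setting S T₀ T) (hU : Continuous TU) (hS : Continuous TS)
    [FiniteDimensional ℝ VU] [FiniteDimensional ℝ VS] {E₁ E₂ : Type} [NormedAddCommGroup E₁]
    [NormedSpace ℝ E₁] [NormedAddCommGroup E₂] [NormedSpace ℝ E₂] [FiniteDimensional ℝ E₁]
    [FiniteDimensional ℝ E₂] (J : Tgt r VU VS ≃L[ℝ] E₁ × E₂) (C₀ : E r ≃L[ℝ] E₁ × E₂)
    (i₀ : Fin r) {κ : Fin r → ℍ} (hv : κ i₀ ∉ (F i₀).U) {b₀ : ℍ}
    (hb : (F i₀).Corner (κ i₀) b₀) (hs : IsSingular (F i₀).du (F i₀).ds (κ i₀))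
    (hκ : ∀ i, i ≠ i₀ → (F i).Reg (κ i)) (c : VU × VS)
    (RT : (Fin r → ℍ) → VU × VS → Prop)
    (hd : ∀ w : Fin r → ℍ, (∀ i, (F i).Reg (w i)) → Dense {c | RT w c})
    (hN : ∀ w : Fin r → ℍ, (∀ i, (F i).Reg (w i)) → ∀ c, RT w c →
      ∃ q, NL F T TU TS w w c = {q})
    (hcpt : Cocpt F T TU TS κ c) (hC : (NL F T TU TS κ κ c).Countable)
    (hB : Bracket F T TU TS)
    (h1 : ∀ (w : Fin r → ℍ) (c : VU × VS), (∀ i, (F i).Reg (w i)) →
      ∀ Θ : Tgt r VU VS ≃L[ℝ] E₁ × E₂, Conn.Total C₀ (fun x => Θ (full F T TU TS w c x)) 1)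
    (hm : ∀ w' w'' : Fin r → ℍ, (∀ i, (F i).Reg (w' i)) → (∀ i, (F i).Reg (w'' i)) →
      ∀ c' c'', RT w' c' → RT w'' c'' → (NL F T TU TS w' w'' (c'.1, c''.2)).Nonempty →
        ∀ i, ∃ z, (F i).du (w' i) z = 0 ∧ (F i).ds (w'' i) z = 0) :
    False := by
  have hr : Nonempty (Fin r) := ⟨i₀⟩
  have : Nontrivial (E₁ × E₂) := by
    have : Nontrivial (Tgt r VU VS) :=
      ⟨((fun _ => 1, 0), 0), 0, fun h => by
        have h2 : (1 : ℝ) = 0 := congrFun (congrArg (fun q : Tgt r VU VS => q.1.1) h) i₀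
        exact one_ne_zero h2⟩
    exact J.symm.toLinearEquiv.toEquiv.nontrivial
  obtain ⟨z, γ, d, x, b, hz, hzu, hzs, hlu, hls, hγ, hγv, hdl, hx, hxN⟩ :=
    exists_points h i₀ hb hκ c RT hd hN hcpt
  obtain ⟨V, hV, hbr⟩ := hB b
  obtain ⟨K, hK, hKV, hbK, hne⟩ := exists_ball b hV hC
  obtain ⟨D, hD⟩ : ∃ D, D = mkData h hU hS i₀ hκ c J C₀ hK hne := ⟨_, rfl⟩
  have hpos : ∀ k, 0 < (F i₀).du (γ k • z k) (κ i₀) ∧ 0 < (F i₀).ds (γ k • z k) (κ i₀) :=
    fun k => ⟨((hz k).smul (hγ k)).pos_u hv, ((hz k).smul (hγ k)).pos_s hv⟩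
  -- the levels near `c`
  have hlev : ∀ w : ℕ → ℍ, (∀ k, (F i₀).Reg (w k)) → ∃ e : ℕ → VU × VS,
      (∀ k, RT (Function.update κ i₀ (w k)) (e k)) ∧ Tendsto e atTop (𝓝 c) := fun w hw => by
    have h2 : ∀ n : ℕ, ∃ c', RT (Function.update κ i₀ (w n)) c' ∧
        dist c' c < 1 / ((n : ℝ) + 1) := fun n => by
      obtain ⟨c', h3, h4⟩ := (hd _ (reg_update hκ (hw n))).exists_dist_lt c
        (Nat.one_div_pos_of_nat (α := ℝ) (n := n))
      exact ⟨c', h3, by rwa [dist_comm]⟩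
    choose e he1 he2 using h2
    refine ⟨e, he1, ?_⟩
    rw [tendsto_iff_dist_tendsto_zero]
    exact squeeze_zero (fun k => dist_nonneg) (fun k => (he2 k).le)
      tendsto_one_div_add_atTop_nhds_zero_nat
  refine Pool.Agent.ANO5.End.main D
    (fun p s => ∃ w c', p = Sum.inl w ∧ (F i₀).Reg w ∧ RT (Function.update κ i₀ w) c' ∧
      s = ((0, 0), (c.1 - c'.1, 0)))
    (fun p s => ∃ w c', p = Sum.inl w ∧ (F i₀).Reg w ∧ RT (Function.update κ i₀ w) c' ∧
      s = ((0, 0), (0, c.2 - c'.2))) (range Sum.inl) ?_ ?_ ?_ ?_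
    (w₀ := fun k => Sum.inl (γ k • z k)) (w₀' := fun k => Sum.inl (γ k • z k)) ?_ ?_
    (s₀ := fun k => ((0, 0), (c.1 - (d k).1, c.2 - (d k).2))) ?_ ?_
  · rw [hD]
    intro q hq
    obtain ⟨w, hw1, hw2⟩ := exists_seg_u h i₀ q hq
    obtain ⟨e, he1, he2⟩ := hlev w fun k => (hw2 k).1
    refine ⟨fun k => Sum.inl (w k), fun k => ((0, 0), (c.1 - (e k).1, 0)), hw1, ?_,
      fun k => ⟨⟨w k, e k, rfl, (hw2 k).1, he1 k, rfl⟩, (hw2 k).2⟩⟩
    have h2 : Tendsto (fun k => c.1 - (e k).1) atTop (𝓝 (c.1 - c.1)) :=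
      tendsto_const_nhds.sub ((continuous_fst.tendsto c).comp he2)
    rw [sub_self] at h2
    exact Tendsto.prodMk_nhds tendsto_const_nhds (Tendsto.prodMk_nhds h2 tendsto_const_nhds)
  · rw [hD]
    intro q hq
    obtain ⟨w, hw1, hw2⟩ := exists_seg_s h i₀ q hq
    obtain ⟨e, he1, he2⟩ := hlev w fun k => (hw2 k).1
    refine ⟨fun k => Sum.inl (w k), fun k => ((0, 0), (0, c.2 - (e k).2)), hw1, ?_,
      fun k => ⟨⟨w k, e k, rfl, (hw2 k).1, he1 k, rfl⟩, (hw2 k).2⟩⟩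
    have h2 : Tendsto (fun k => c.2 - (e k).2) atTop (𝓝 (c.2 - c.2)) :=
      tendsto_const_nhds.sub ((continuous_snd.tendsto c).comp he2)
    rw [sub_self] at h2
    exact Tendsto.prodMk_nhds tendsto_const_nhds (Tendsto.prodMk_nhds tendsto_const_nhds h2)
  · rw [hD]
    rintro _ ⟨x', hx', rfl⟩ _ ⟨y', hy', rfl⟩ _ _ _ _ s s₂ s' s₂' ⟨z1, c1, rfl, hz1, hc1, hs1⟩
      ⟨z2, c2, rfl, hz2, hc2, hs2⟩ ⟨z3, c3, rfl, hz3, hc3, hs3⟩ ⟨z4, c4, rfl, hz4, hc4, hs4⟩
      e1 e2 o1 e3 e4 o2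
    obtain ⟨p, hp, hpU, hpS⟩ := hbr x' (hKV hx') y' (hKV hy')
    change DU F T i₀ (Sum.inl z1) (Sum.inr (ofE (C₀.symm (C₀ (toE x'))))) = 0 at e1
    change oth F T TU TS i₀ κ c (ofE (C₀.symm (C₀ (toE x')))) + (s + s₂') = 0 at o1
    change DS F T i₀ (Sum.inl z3) (Sum.inr (ofE (C₀.symm (C₀ (toE y'))))) = 0 at e4
    change oth F T TU TS i₀ κ c (ofE (C₀.symm (C₀ (toE y')))) + (s₂ + s') = 0 at o2
    rw [ContinuousLinearEquiv.symm_apply_apply, A1.Idx.ofE_toE] at e1 o1 e4 o2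
    have a1 : s + s₂' = ((0, 0), (c.1 - c1.1, c.2 - c4.2)) := by
      rw [hs1, hs4]
      refine Prod.ext (Prod.ext ?_ ?_) (Prod.ext ?_ ?_)
      · exact add_zero _
      · exact add_zero _
      · exact add_zero _
      · exact zero_add _
    have a2 : s₂ + s' = ((0, 0), (c.1 - c2.1, c.2 - c3.2)) := by
      rw [hs2, hs3]
      refine Prod.ext (Prod.ext ?_ ?_) (Prod.ext ?_ ?_)
      · exact add_zero _
      · exact add_zero _
      · exact add_zero _
      · exact zero_add _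
    rw [a1] at o1
    rw [a2] at o2
    obtain ⟨b1, b2, -⟩ := oth_eq h i₀ hκ o1
    obtain ⟨b3, -, b4⟩ := oth_eq h i₀ hκ o2
    have key : p ∈ NL F T TU TS (Function.update κ i₀ z1) (Function.update κ i₀ z3)
        (c1.1, c3.2) := by
      refine ⟨fun i => ?_, hpU.trans b2, hpS.trans b4⟩
      have t1 := (isTree_DU (F := F) h i).triangle (Sum.inl (Function.update κ i₀ z1 i))
        (Sum.inr x') (Sum.inr p)
      have t2 := (isTree_DS (F := F) h i).triangle (Sum.inl (Function.update κ i₀ z3 i))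
        (Sum.inr y') (Sum.inr p)
      have n1 := (isTree_DU (F := F) h i).nonneg (Sum.inl (Function.update κ i₀ z1 i))
        (Sum.inr p)
      have n2 := (isTree_DS (F := F) h i).nonneg (Sum.inl (Function.update κ i₀ z3 i))
        (Sum.inr p)
      rw [(hp i).1] at t1
      rw [(hp i).2] at t2
      by_cases hi : i = i₀
      · subst hi
        rw [Function.update_self] at t1 t2 n1 n2 ⊢
        rw [Function.update_self]
        rw [e1] at t1
        rw [e4] at t2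
        exact ⟨by linarith, by linarith⟩
      · rw [Function.update_of_ne hi] at t1 t2 n1 n2 ⊢
        rw [Function.update_of_ne hi]
        rw [(b1 i hi).1] at t1
        rw [(b3 i hi).2] at t2
        exact ⟨by linarith, by linarith⟩
    obtain ⟨a, ha, ha'⟩ := hm _ _ (reg_update hκ hz1) (reg_update hκ hz3) c1 c3 hc1 hc3
      ⟨p, key⟩ i₀
    rw [Function.update_self] at ha ha'
    exact ⟨Sum.inl a, ⟨a, rfl⟩, (DU_inl (F := F) i₀ z1 a).trans ha,
      (DS_inl (F := F) i₀ z3 a).trans ha'⟩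
  · rw [hD]
    rintro _ ⟨a, rfl⟩ _ ⟨c, rfl⟩ _ ⟨d, rfl⟩ _ ⟨e, rfl⟩ s1 s2 s3 s4
    have ku : ∀ a b, SameArm (DU F T i₀) (Sum.inl (κ i₀)) (Sum.inl a) (Sum.inl b) ↔
        SameArm (F i₀).du (κ i₀) a b := fun a b => by
      unfold SameArm
      rw [DU_inl, DU_inl, DU_inl]
    have ks : ∀ a b, SameArm (DS F T i₀) (Sum.inl (κ i₀)) (Sum.inl a) (Sum.inl b) ↔
        SameArm (F i₀).ds (κ i₀) a b := fun a b => by
      unfold SameArm
      rw [DS_inl, DS_inl, DS_inl]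
    exact (hs a c d e ((ku _ _).1 s1) ((ku _ _).1 s2) ((ks _ _).1 s3) ((ks _ _).1 s4)).imp
      (ku _ _).2 (ks _ _).2
  · rw [hD]
    exact conv_corner_u h i₀ hv hb hz hzu hlu hγ hγv
  · rw [hD]
    exact conv_corner_s h i₀ hv hb hz hzs hls hγ hγv
  · have h2 : Tendsto (fun k => (c.1 - (d k).1, c.2 - (d k).2)) atTop
        (𝓝 (c.1 - c.1, c.2 - c.2)) :=
      (tendsto_const_nhds.sub ((continuous_fst.tendsto c).comp hdl)).prodMk_nhds
        (tendsto_const_nhds.sub ((continuous_snd.tendsto c).comp hdl))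
    rw [sub_self, sub_self] at h2
    exact Tendsto.prodMk_nhds tendsto_const_nhds h2
  · refine Eventually.frequently ?_
    filter_upwards [hx.eventually (isOpen_interior.mem_nhds hbK)] with k hk
    have hreg := reg_update hκ ((hz k).smul (hγ k))
    obtain ⟨Θ, hΘ⟩ := mkData_PhiS h hU hS i₀ hκ c J C₀ hK hne ((hz k).smul (hγ k))
      (hpos k).1 (hpos k).2 (d k)
    have h2 := Tot.degX_eq_of_total (h1 _ (d k) hreg Θ) (K := K) ?_ hK ?_
    · rw [hD]
      intro h3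
      have h4 : Conn.degX C₀ (fun x => Θ (full F T TU TS
          (Function.update κ i₀ (γ k • z k)) (d k) x)) K = 0 := by
        unfold Conn.degX
        rw [← hΘ]
        exact h3
      rw [h4] at h2
      exact zero_ne_one h2
    · exact Θ.continuous.comp (continuous_full h hU hS hreg (d k))
    · intro y hy
      have h5 : full F T TU TS (Function.update κ i₀ (γ k • z k)) (d k) y = 0 :=
        Θ.map_eq_zero_iff.1 hy
      rw [full_eq_zero h hreg, hxN k] at h5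
      rw [mem_singleton_iff.1 h5]
      exact hk

end Pool.Agent.ANO5.A3.End
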