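import Pool.Agent.ANO5.End.Seg
import Pool.Agent.ANO5.A3.Conn.Total

/-!
# ANO5, module End: the data of the local argument in the product situation

`TU : X r → VU`, `TS : X r → VS` are the torus functions.  A point over the regular points `w i`
with the level `c : VU × VS` is a zero of `full F T TU TS w c`.
-/

set_option autoImplicit false
set_option linter.unusedSectionVars false

open scoped UpperHalfPlane MatrixGroups
open Set Filter Topology

namespace Pool.Agent.ANO5.A3.End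

open Pool.Agent.ANO3 Pool.Agent.ANO3.Tree Pool.Agent.ANO3.End Pool.Agent.ANO5.A1
  Pool.Agent.ANO5.A2 Pool.Agent.ANO5.End

variable {r : ℕ} {VU VS : Type} [NormedAddCommGroup VU] [NormedSpace ℝ VU]
  [NormedAddCommGroup VS] [NormedSpace ℝ VS]

/-- the other indices -/
abbrev Oth (i₀ : Fin r) : Type := {j : Fin r // j ≠ i₀}

/-- one coordinate and the others -/
noncomputable def splitL (i₀ : Fin r) : (Fin r → ℝ) ≃ₗ[ℝ] ℝ × (Oth i₀ → ℝ) :=
  { Equiv.funSplitAt i₀ ℝ with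
    map_add' := fun _ _ => rfl
    map_smul' := fun _ _ => rfl }

theorem splitL_symm_self (i₀ : Fin r) (a : ℝ) (o : Oth i₀ → ℝ) :
    (splitL i₀).symm (a, o) i₀ = a := by
  have h := (splitL i₀).apply_symm_apply (a, o)
  exact congrArg Prod.fst h

theorem splitL_symm_of_ne (i₀ : Fin r) (a : ℝ) (o : Oth i₀ → ℝ) (j : Oth i₀) :
    (splitL i₀).symm (a, o) j.1 = o j := by
  have h := (splitL i₀).apply_symm_apply (a, o)
  exact congrFun (congrArg Prod.snd h) j

/-- the values of the coordinate functions -/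
abbrev Tgt (r : ℕ) (VU VS : Type) : Type := ((Fin r → ℝ) × VU) × ((Fin r → ℝ) × VS)

/-- the coordinates of the factors different from `i₀` and of the torus -/
abbrev Cot (i₀ : Fin r) (VU VS : Type) : Type := ((Oth i₀ → ℝ) × (Oth i₀ → ℝ)) × (VU × VS)

variable (VU VS) in
/-- the coordinates of the target -/
noncomputable def eL [FiniteDimensional ℝ VU] [FiniteDimensional ℝ VS] (i₀ : Fin r) :
    ((ℝ × ℝ) × Cot i₀ VU VS) ≃L[ℝ] Tgt r VU VS :=
  ((((LinearEquiv.prodAssoc ℝ (ℝ × ℝ) ((Oth i₀ → ℝ) × (Oth i₀ → ℝ)) (VU × VS)).symm).trans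
    ((LinearEquiv.prodProdProdComm ℝ ℝ ℝ (Oth i₀ → ℝ) (Oth i₀ → ℝ)).prodCongr
      (LinearEquiv.refl ℝ (VU × VS)))).trans
    ((((splitL i₀).symm.prodCongr (splitL i₀).symm).prodCongr
      (LinearEquiv.refl ℝ (VU × VS))).trans
      (LinearEquiv.prodProdProdComm ℝ (Fin r → ℝ) (Fin r → ℝ) VU VS))).toContinuousLinearEquiv

theorem eL_apply [FiniteDimensional ℝ VU] [FiniteDimensional ℝ VS] (i₀ : Fin r) (a b : ℝ)
    (o o' : Oth i₀ → ℝ) (u : VU) (s : VS) :
    eL VU VS i₀ ((a, b), ((o, o'), (u, s))) =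
      (((splitL i₀).symm (a, o), u), ((splitL i₀).symm (b, o'), s)) := rfl

/-- change of the sign of one coordinate -/
noncomputable def sgnL (i₀ : Fin r) (ε : ℝˣ) : (Fin r → ℝ) ≃L[ℝ] (Fin r → ℝ) :=
  ContinuousLinearEquiv.piCongrRight fun i =>
    ContinuousLinearEquiv.unitsEquivAut ℝ (if i = i₀ then ε else 1)

theorem sgnL_self (i₀ : Fin r) (ε : ℝˣ) (a : Fin r → ℝ) : sgnL i₀ ε a i₀ = a i₀ * ε := by
  simp [sgnL]

theorem sgnL_of_ne (i₀ : Fin r) (ε : ℝˣ) (a : Fin r → ℝ) {i : Fin r} (hi : i ≠ i₀) :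
    sgnL i₀ ε a i = a i := by
  simp [sgnL, hi]

variable [Fib] {S : Fin r → SurfaceMap} {F : ∀ i, Flat (S i)} {T₀ T : X r ≃ₜ X r}
  {TU : X r → VU} {TS : X r → VS}

variable (F T TU TS) in
/-- the points over the types `w'` (first foliation), `w''` (second foliation), with the level
`c` -/
def NL (w' w'' : Fin r → ℍ) (c : VU × VS) : Set (X r) :=
  {x | x ∈ NN F T w' w'' ∧ TU x = c.1 ∧ TS x = c.2}

variable (F T TU TS) in
/-- all coordinates -/
noncomputable def full (w : Fin r → ℍ) (c : VU × VS) (x : X r) : Tgt r VU VS :=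
  ((fun i => su F T i (w i) x, TU x - c.1), (fun i => ss F T i (w i) x, TS x - c.2))

theorem continuous_full (h : Setting S T₀ T) (hU : Continuous TU) (hS : Continuous TS)
    {w : Fin r → ℍ} (hw : ∀ i, (F i).Reg (w i)) (c : VU × VS) :
    Continuous (full F T TU TS w c) :=
  ((continuous_pi fun i => continuous_su h (hw i)).prodMk (hU.sub continuous_const)).prodMk
    ((continuous_pi fun i => continuous_ss h (hw i)).prodMk (hS.sub continuous_const))

theorem full_eq_zero (h : Setting S T₀ T) {w : Fin r → ℍ} (hw : ∀ i, (F i).Reg (w i))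
    {c : VU × VS} {x : X r} : full F T TU TS w c x = 0 ↔ x ∈ NL F T TU TS w w c := by
  have e : full F T TU TS w c x = 0 ↔
      (∀ i, su F T i (w i) x = 0) ∧ TU x - c.1 = 0 ∧ (∀ i, ss F T i (w i) x = 0) ∧
        TS x - c.2 = 0 := by
    rw [Prod.ext_iff, Prod.ext_iff, Prod.ext_iff, funext_iff, funext_iff, and_assoc]
    rfl
  rw [e, sub_eq_zero, sub_eq_zero]
  have h1 : ∀ i, su F T i (w i) x = 0 ↔ DU F T i (Sum.inl (w i)) (Sum.inr x) = 0 := fun i => by
    rw [← abs_su h (hw i), abs_eq_zero]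
  have h2 : ∀ i, ss F T i (w i) x = 0 ↔ DS F T i (Sum.inl (w i)) (Sum.inr x) = 0 := fun i => by
    rw [← abs_ss h (hw i), abs_eq_zero]
  simp only [h1, h2]
  constructor
  · rintro ⟨a1, a2, a3, a4⟩
    exact ⟨fun i => ⟨a1 i, a3 i⟩, a2, a4⟩
  · rintro ⟨a1, a2, a4⟩
    exact ⟨fun i => (a1 i).1, a2, fun i => (a1 i).2, a4⟩

variable (F T TU TS) in
/-- the coordinates of the other factors and of the torus -/
noncomputable def oth (i₀ : Fin r) (w : Fin r → ℍ) (c : VU × VS) (x : X r) : Cot i₀ VU VS :=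
  ((fun j => su F T j.1 (w j.1) x, fun j => ss F T j.1 (w j.1) x), (TU x - c.1, TS x - c.2))

theorem continuous_oth (h : Setting S T₀ T) (hU : Continuous TU) (hS : Continuous TS)
    (i₀ : Fin r) {w : Fin r → ℍ} (hw : ∀ i, i ≠ i₀ → (F i).Reg (w i)) (c : VU × VS) :
    Continuous (oth F T TU TS i₀ w c) :=
  ((continuous_pi fun j => continuous_su h (hw j.1 j.2)).prodMk
    (continuous_pi fun j => continuous_ss h (hw j.1 j.2))).prodMk
      ((hU.sub continuous_const).prodMk (hS.sub continuous_const))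

theorem oth_eq (h : Setting S T₀ T) (i₀ : Fin r) {w : Fin r → ℍ}
    (hw : ∀ i, i ≠ i₀ → (F i).Reg (w i)) {c : VU × VS} {x : X r} {a : VU} {b : VS}
    (hx : oth F T TU TS i₀ w c x + ((0, 0), (c.1 - a, c.2 - b)) = 0) :
    (∀ i, i ≠ i₀ → DU F T i (Sum.inl (w i)) (Sum.inr x) = 0 ∧
      DS F T i (Sum.inl (w i)) (Sum.inr x) = 0) ∧ TU x = a ∧ TS x = b := by
  have e1 := congrArg (fun q : Cot i₀ VU VS => q.1.1) hx
  have e2 := congrArg (fun q : Cot i₀ VU VS => q.1.2) hx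
  have e3 := congrArg (fun q : Cot i₀ VU VS => q.2.1) hx
  have e4 := congrArg (fun q : Cot i₀ VU VS => q.2.2) hx
  refine ⟨fun i hi => ?_, ?_, ?_⟩
  · have h1 : su F T i (w i) x + 0 = 0 := congrFun e1 ⟨i, hi⟩
    have h2 : ss F T i (w i) x + 0 = 0 := congrFun e2 ⟨i, hi⟩
    rw [add_zero] at h1 h2
    rw [← abs_su h (hw i hi), ← abs_ss h (hw i hi), h1, h2]
    exact ⟨abs_zero, abs_zero⟩
  · have h3 : TU x - c.1 + (c.1 - a) = 0 := e3
    rwa [sub_add_sub_cancel, sub_eq_zero] at h3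
  · have h3 : TS x - c.2 + (c.2 - b) = 0 := e4
    rwa [sub_add_sub_cancel, sub_eq_zero] at h3

theorem oth_eq_zero (h : Setting S T₀ T) (i₀ : Fin r) {w : Fin r → ℍ}
    (hw : ∀ i, i ≠ i₀ → (F i).Reg (w i)) {c : VU × VS} {x : X r}
    (hx : oth F T TU TS i₀ w c x = 0) :
    (∀ i, i ≠ i₀ → DU F T i (Sum.inl (w i)) (Sum.inr x) = 0 ∧
      DS F T i (Sum.inl (w i)) (Sum.inr x) = 0) ∧ TU x = c.1 ∧ TS x = c.2 := by
  refine oth_eq (F := F) h i₀ hw (c := c) (a := c.1) (b := c.2) ?_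
  rw [hx, sub_self, sub_self, zero_add]
  rfl

variable {E₁ E₂ : Type} [NormedAddCommGroup E₁] [NormedSpace ℝ E₁]
  [NormedAddCommGroup E₂] [NormedSpace ℝ E₂] [FiniteDimensional ℝ E₁] [FiniteDimensional ℝ E₂]
  [Nontrivial (E₁ × E₂)] [FiniteDimensional ℝ VU] [FiniteDimensional ℝ VS]

/-- The data. -/
noncomputable def mkData (h : Setting S T₀ T) (hU : Continuous TU) (hS : Continuous TS)
    (i₀ : Fin r) {w : Fin r → ℍ} (hw : ∀ i, i ≠ i₀ → (F i).Reg (w i)) (c : VU × VS)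
    (J : Tgt r VU VS ≃L[ℝ] E₁ × E₂) (C₀ : E r ≃L[ℝ] E₁ × E₂) {K : Set (X r)}
    (hK : IsCompact K) (hne : ∀ x ∈ frontier K, x ∉ NL F T TU TS w w c) :
    Data (ℍ ⊕ X r) (E₁ × E₂) (Cot i₀ VU VS) where
  du := DU F T i₀
  ds := DS F T i₀
  hu := isTree_DU h i₀
  hs := isTree_DS h i₀
  cu := continuous_DU h i₀
  cs := continuous_DS h i₀
  v := Sum.inl (w i₀)
  O := C₀ '' dom r
  isOpen := Conn.isOpen_range C₀
  ι := fun z => Sum.inr (ofE (C₀.symm z))
  cι := by
    refine continuous_inr.comp_continuousOn (A1.Idx.continuousOn_ofE.comp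
      C₀.symm.continuous.continuousOn ?_)
    rintro z ⟨x, hx, rfl⟩
    rw [ContinuousLinearEquiv.symm_apply_apply]
    exact hx
  o := fun z => oth F T TU TS i₀ w c (ofE (C₀.symm z))
  co := by
    refine (continuous_oth h hU hS i₀ hw c).comp_continuousOn (A1.Idx.continuousOn_ofE.comp
      C₀.symm.continuous.continuousOn ?_)
    rintro z ⟨x, hx, rfl⟩
    rw [ContinuousLinearEquiv.symm_apply_apply]
    exact hx
  e := (eL VU VS i₀).trans J
  N := Conn.hatS C₀ K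
  compact := Conn.hatS_compact C₀ hK
  sub := by
    rintro z ⟨x, -, rfl⟩
    exact ⟨toE x, A1.Idx.toE_mem x, rfl⟩
  ne := by
    rw [Conn.frontier_hatS C₀ hK]
    rintro z ⟨x, hx, rfl⟩ h1 h2 h3
    simp only [ContinuousLinearEquiv.symm_apply_apply, A1.Idx.ofE_toE] at h1 h2 h3
    obtain ⟨h4, h5, h6⟩ := oth_eq_zero h i₀ hw h3
    refine hne x hx ⟨fun i => ?_, h5, h6⟩
    by_cases hi : i = i₀
    · rw [hi]
      exact ⟨h1, h2⟩
    · exact h4 i hi

/-- The maps of the local argument at a regular point of the factor `i₀` are the maps `full`, up to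
signs. -/
theorem mkData_PhiS (h : Setting S T₀ T) (hU : Continuous TU) (hS : Continuous TS)
    (i₀ : Fin r) {w : Fin r → ℍ} (hw : ∀ i, i ≠ i₀ → (F i).Reg (w i)) (c : VU × VS)
    (J : Tgt r VU VS ≃L[ℝ] E₁ × E₂) (C₀ : E r ≃L[ℝ] E₁ × E₂) {K : Set (X r)}
    (hK : IsCompact K) (hne : ∀ x ∈ frontier K, x ∉ NL F T TU TS w w c) {z : ℍ}
    (hz : (F i₀).Reg z) (hu : 0 < (F i₀).du z (w i₀)) (hs : 0 < (F i₀).ds z (w i₀))
    (c' : VU × VS) :
    ∃ Θ : Tgt r VU VS ≃L[ℝ] E₁ × E₂,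
      PhiS (mkData h hU hS i₀ hw c J C₀ hK hne)
          (fun x => -rho (DU F T i₀) (Sum.inl z) (Sum.inl (w i₀)) x)
          (fun x => -rho (DS F T i₀) (Sum.inl z) (Sum.inl (w i₀)) x)
          ((0, 0), (c.1 - c'.1, c.2 - c'.2)) =
        Conn.hat C₀ (fun x => Θ (full F T TU TS (Function.update w i₀ z) c' x)) := by
  obtain ⟨ε, hε, h1⟩ := rho_eq_su h i₀ hz hu
  obtain ⟨ε', hε', h2⟩ := rho_eq_ss h i₀ hz hs
  have hunit : ∀ a : ℝ, (a = 1 ∨ a = -1) → ∃ u : ℝˣ, (u : ℝ) = a := by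
    rintro a (rfl | rfl)
    · exact ⟨1, rfl⟩
    · exact ⟨-1, by simp⟩
  obtain ⟨u, hu1⟩ := hunit ε hε
  obtain ⟨u', hu1'⟩ := hunit ε' hε'
  refine ⟨(((sgnL i₀ u).prodCongr (ContinuousLinearEquiv.refl ℝ VU)).prodCongr
    ((sgnL i₀ u').prodCongr (ContinuousLinearEquiv.refl ℝ VS))).trans J, ?_⟩
  funext y
  obtain ⟨x, hx⟩ : ∃ x : X r, x = ofE (C₀.symm y) := ⟨_, rfl⟩
  change J (eL VU VS i₀ ((-rho (DU F T i₀) (Sum.inl z) (Sum.inl (w i₀))
      (Sum.inr (ofE (C₀.symm y))),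
    -rho (DS F T i₀) (Sum.inl z) (Sum.inl (w i₀)) (Sum.inr (ofE (C₀.symm y)))),
    oth F T TU TS i₀ w c (ofE (C₀.symm y)) + ((0, 0), (c.1 - c'.1, c.2 - c'.2)))) =
    J ((sgnL i₀ u (full F T TU TS (Function.update w i₀ z) c' (ofE (C₀.symm y))).1.1,
        (full F T TU TS (Function.update w i₀ z) c' (ofE (C₀.symm y))).1.2),
      (sgnL i₀ u' (full F T TU TS (Function.update w i₀ z) c' (ofE (C₀.symm y))).2.1,
        (full F T TU TS (Function.update w i₀ z) c' (ofE (C₀.symm y))).2.2))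
  rw [← hx, h1, h2]
  congr 1
  have e : oth F T TU TS i₀ w c x + ((0, 0), (c.1 - c'.1, c.2 - c'.2)) =
      ((fun j => su F T j.1 (w j.1) x, fun j => ss F T j.1 (w j.1) x),
        (TU x - c'.1, TS x - c'.2)) := by
    refine Prod.ext (Prod.ext ?_ ?_) (Prod.ext ?_ ?_)
    · exact add_zero _
    · exact add_zero _
    · exact sub_add_sub_cancel _ _ _
    · exact sub_add_sub_cancel _ _ _
  rw [e, eL_apply]
  refine Prod.ext (Prod.ext (funext fun i => ?_) rfl) (Prod.ext (funext fun i => ?_) rfl)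
  · dsimp only [full]
    by_cases hi : i = i₀
    · subst hi
      rw [splitL_symm_self, sgnL_self, hu1, Function.update_self, mul_comm]
    · have h3 := splitL_symm_of_ne i₀ (ε * su F T i₀ z x) (fun j => su F T j.1 (w j.1) x) ⟨i, hi⟩
      rw [sgnL_of_ne _ _ _ hi, Function.update_of_ne hi]
      exact h3
  · dsimp only [full]
    by_cases hi : i = i₀
    · subst hi
      rw [splitL_symm_self, sgnL_self, hu1', Function.update_self, mul_comm]
    · have h3 := splitL_symm_of_ne i₀ (ε' * ss F T i₀ z x) (fun j => ss F T j.1 (w j.1) x) ⟨i, hi⟩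
      rw [sgnL_of_ne _ _ _ hi, Function.update_of_ne hi]
      exact h3

end Pool.Agent.ANO5.A3.End
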