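import Pool.Agent.ANO3.End.Sum

/-!
# ANO5, module End: the contradiction at a vertex, abstract form with shifts

As `Pool.Agent.ANO3.End.Main`; the coordinates `o` of the other factors are shifted by vectors
`s k` which tend to zero (the levels of the torus functions of the types near the vertex).
-/

set_option autoImplicit false

open Set Filter Topology

namespace Pool.Agent.ANO5.End

open Pool.Agent.ANO3 Pool.Agent.ANO3.Tree Pool.Agent.ANO3.End

variable {P E F : Type} [TopologicalSpace P] [NormedAddCommGroup E] [NormedSpace ℝ E]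
  [NormedAddCommGroup F] [NormedSpace ℝ F]

/-- The map with the first two coordinates `a`, `b`, the others shifted by `s`. -/
def PhiS (D : Data P E F) (a b : P → ℝ) (s : F) (x : E) : E :=
  D.e ((a (D.ι x), b (D.ι x)), D.o x + s)

omit [TopologicalSpace P] in
private theorem conv_comp_Abs {d : P → P → ℝ} {v : P} {w : ℕ → P} (hw : Conv d v w) {φ : ℕ → ℕ}
    (hφ : Tendsto φ atTop atTop) : Conv d v (fun n => w (φ n)) where
  pos := fun k => hw.pos (φ k)
  lim := hw.lim.comp hφ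
  btw := fun p hp => hφ.eventually (hw.btw p hp)

private theorem continuous_PhiS_Abs (D : Data P E F) {a b : ℝ → P → ℝ} {s : ℝ → F}
    (ha : Continuous fun q : ℝ × P => a q.1 q.2) (hb : Continuous fun q : ℝ × P => b q.1 q.2)
    (hs : Continuous s) :
    ContinuousOn (fun q : ℝ × E => PhiS D (a q.1) (b q.1) (s q.1) q.2) (Icc 0 1 ×ˢ D.O) := by
  unfold PhiS
  have hι : ContinuousOn (fun q : ℝ × E => (q.1, D.ι q.2)) (Icc (0 : ℝ) 1 ×ˢ D.O) :=
    continuousOn_fst.prodMk (D.cι.comp continuousOn_snd fun q hq => hq.2)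
  have ho : ContinuousOn (fun q : ℝ × E => D.o q.2 + s q.1) (Icc (0 : ℝ) 1 ×ˢ D.O) :=
    (D.co.comp continuousOn_snd fun q hq => hq.2).add (hs.comp_continuousOn continuousOn_fst)
  exact D.e.continuous.comp_continuousOn
    (((ha.comp_continuousOn hι).prodMk (hb.comp_continuousOn hι)).prodMk ho)

theorem PhiS_eq_zero (D : Data P E F) {a b : P → ℝ} {s : F} {x : E}
    (h : PhiS D a b s x = 0) : a (D.ι x) = 0 ∧ b (D.ι x) = 0 ∧ D.o x + s = 0 := by
  unfold PhiS at h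
  have h1 := D.e.map_eq_zero_iff.1 h
  have h2 := congrArg Prod.fst h1
  have h3 := congrArg Prod.snd h1
  exact ⟨congrArg Prod.fst h2, congrArg Prod.snd h2, h3⟩

/-- A convex combination of numbers of the same sign. -/
private theorem convex_ne_Abs {A A' t : ℝ} (ht : t ∈ Icc (0 : ℝ) 1)
    (h : (0 < A ∧ 0 < A') ∨ (A < 0 ∧ A' < 0)) : (1 - t) * A + t * A' ≠ 0 := by
  obtain ⟨h0, h1⟩ := ht
  intro hz
  rcases h with ⟨hA, hA'⟩ | ⟨hA, hA'⟩
  · rcases eq_or_lt_of_le h0 with h2 | h2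
    · rw [← h2] at hz
      linarith
    · have h3 := mul_pos h2 hA'
      have h4 := mul_nonneg (sub_nonneg.2 h1) hA.le
      linarith
  · rcases eq_or_lt_of_le h0 with h2 | h2
    · rw [← h2] at hz
      linarith
    · have h3 := mul_pos h2 (neg_pos.2 hA')
      have h4 := mul_nonneg (sub_nonneg.2 h1) (neg_nonneg.2 hA.le)
      linarith

/-- The degrees of the maps which belong to `w k`, `w' k` and the shifts `s k`. -/
theorem cmp [FiniteDimensional ℝ E] (D : Data P E F) {w w' : ℕ → P}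
    (hw : Conv D.du D.v w) (hw' : Conv D.ds D.v w') {s : ℕ → F} (hs : Tendsto s atTop (𝓝 0)) :
    ∀ᶠ k in atTop,
      Deg.deg (PhiS D (fun x => -rho D.du (w k) D.v x) (fun x => -rho D.ds (w' k) D.v x) (s k))
        D.N = D.dg (w k) (w' k) := by
  have := D.nontrivial
  have hfr : frontier D.N ⊆ D.N := D.compact.isClosed.frontier_subset
  have hK : IsCompact (frontier D.N) := D.compact.of_isClosed_subset isClosed_frontier hfr
  -- no zero on the frontier during the homotopy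
  have key : ∀ᶠ k in atTop, ¬ ∃ t ∈ Icc (0 : ℝ) 1, ∃ x ∈ frontier D.N,
      (1 - t) * (-rho D.du (w k) D.v (D.ι x)) + t * rho D.du D.v (w k) (D.ι x) = 0 ∧
      (1 - t) * (-rho D.ds (w' k) D.v (D.ι x)) + t * rho D.ds D.v (w' k) (D.ι x) = 0 ∧
      D.o x + (1 - t) • s k = 0 := by
    by_contra hcon
    have hfreq : ∃ᶠ k in atTop, ∃ t ∈ Icc (0 : ℝ) 1, ∃ x ∈ frontier D.N,
        (1 - t) * (-rho D.du (w k) D.v (D.ι x)) + t * rho D.du D.v (w k) (D.ι x) = 0 ∧
        (1 - t) * (-rho D.ds (w' k) D.v (D.ι x)) + t * rho D.ds D.v (w' k) (D.ι x) = 0 ∧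
        D.o x + (1 - t) • s k = 0 := by
      intro h1
      exact hcon h1
    obtain ⟨φ, hφ, hB⟩ := extraction_of_frequently_atTop hfreq
    choose t ht x hx hu hs' ho using hB
    obtain ⟨x₀, hx₀, ψ, hψ, hlim⟩ := hK.tendsto_subseq hx
    have hφψ : Tendsto (fun n => φ (ψ n)) atTop atTop :=
      hφ.tendsto_atTop.comp hψ.tendsto_atTop
    have hx₀O : x₀ ∈ D.O := D.sub (hfr hx₀)
    have hxO : ∀ n, x (ψ n) ∈ D.O := fun n => D.sub (hfr (hx _))
    have hlimO : Tendsto (fun n => x (ψ n)) atTop (𝓝[D.O] x₀) :=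
      tendsto_nhdsWithin_iff.2 ⟨hlim, Eventually.of_forall hxO⟩
    have hι : Tendsto (fun n => D.ι (x (ψ n))) atTop (𝓝 (D.ι x₀)) :=
      (D.cι x₀ hx₀O).tendsto.comp hlimO
    have ho0 : D.o x₀ = 0 := by
      have h1 : Tendsto (fun n => D.o (x (ψ n))) atTop (𝓝 (D.o x₀)) :=
        (D.co x₀ hx₀O).tendsto.comp hlimO
      have h2 : (fun n => D.o (x (ψ n))) = fun n => -((1 - t (ψ n)) • s (φ (ψ n))) :=
        funext fun n => eq_neg_of_add_eq_zero_left (ho _)
      rw [h2] at h1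
      have h3 : Tendsto (fun n => -((1 - t (ψ n)) • s (φ (ψ n)))) atTop (𝓝 0) := by
        rw [tendsto_zero_iff_norm_tendsto_zero]
        refine squeeze_zero (fun n => norm_nonneg _) (fun n => ?_)
          (tendsto_zero_iff_norm_tendsto_zero.1 (hs.comp hφψ))
        rw [norm_neg, norm_smul, Real.norm_eq_abs,
          abs_of_nonneg (sub_nonneg.2 (ht (ψ n)).2)]
        show (1 - t (ψ n)) * ‖s (φ (ψ n))‖ ≤ ‖s (φ (ψ n))‖
        have h4 := (ht (ψ n)).1
        have h5 := norm_nonneg (s (φ (ψ n)))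
        nlinarith
      exact tendsto_nhds_unique h1 h3
    have hdu : Tendsto (fun n => D.du (D.ι x₀) (D.ι (x (ψ n)))) atTop (𝓝 0) := by
      have h1 := (D.cu.tendsto (D.ι x₀, D.ι x₀)).comp (tendsto_const_nhds.prodMk_nhds hι)
      simp only [D.hu.self] at h1
      exact h1
    have hds : Tendsto (fun n => D.ds (D.ι x₀) (D.ι (x (ψ n)))) atTop (𝓝 0) := by
      have h1 := (D.cs.tendsto (D.ι x₀, D.ι x₀)).comp (tendsto_const_nhds.prodMk_nhds hι)
      simp only [D.hs.self] at h1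
      exact h1
    rcases (D.hu.nonneg D.v (D.ι x₀)).eq_or_lt with h0 | h0
    · rcases (D.hs.nonneg D.v (D.ι x₀)).eq_or_lt with h0' | h0'
      · exact D.ne x₀ hx₀ h0.symm h0'.symm ho0
      · obtain ⟨n, hn⟩ := (Conv.same_sign D.hs (conv_comp_Abs hw' hφψ) h0' hds).exists
        exact convex_ne_Abs (ht (ψ n)) hn (hs' (ψ n))
    · obtain ⟨n, hn⟩ := (Conv.same_sign D.hu (conv_comp_Abs hw hφψ) h0 hdu).exists
      exact convex_ne_Abs (ht (ψ n)) hn (hu (ψ n))
  filter_upwards [key] with k hk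
  have cA : Continuous fun q : ℝ × P =>
      (1 - q.1) * (-rho D.du (w k) D.v q.2) + q.1 * rho D.du D.v (w k) q.2 := by
    have h1 := continuous_rho D.hu D.cu (w k) D.v
    have h2 := continuous_rho D.hu D.cu D.v (w k)
    fun_prop
  have cB : Continuous fun q : ℝ × P =>
      (1 - q.1) * (-rho D.ds (w' k) D.v q.2) + q.1 * rho D.ds D.v (w' k) q.2 := by
    have h1 := continuous_rho D.hs D.cs (w' k) D.v
    have h2 := continuous_rho D.hs D.cs D.v (w' k)
    fun_prop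
  have cS : Continuous fun t : ℝ => (1 - t) • s k :=
    (continuous_const.sub continuous_id).smul continuous_const
  have hdeg := Deg.deg_homotopy (N := D.N) (V := D.O) D.compact D.isOpen D.sub
    (F := fun t => PhiS D
      (fun p => (1 - t) * (-rho D.du (w k) D.v p) + t * rho D.du D.v (w k) p)
      (fun p => (1 - t) * (-rho D.ds (w' k) D.v p) + t * rho D.ds D.v (w' k) p)
      ((1 - t) • s k))
    (continuous_PhiS_Abs D
      (a := fun t p => (1 - t) * (-rho D.du (w k) D.v p) + t * rho D.du D.v (w k) p)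
      (b := fun t p => (1 - t) * (-rho D.ds (w' k) D.v p) + t * rho D.ds D.v (w' k) p)
      (s := fun t => (1 - t) • s k) cA cB cS)
    (fun t ht x hx h0 => by
      obtain ⟨h1, h2, h3⟩ := PhiS_eq_zero D h0
      exact hk ⟨t, ht, x, hx, h1, h2, h3⟩)
  simp only [sub_zero, one_mul, zero_mul, add_zero, sub_self, zero_add, one_smul, zero_smul]
    at hdeg
  rw [hdeg]
  unfold Data.dg Data.Phi PhiS
  simp only [add_zero]

/-- A zero on `N`. -/
theorem exists_zero [FiniteDimensional ℝ E] (D : Data P E F) {a b : P → ℝ} {s : F}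
    (ha : Continuous a) (hb : Continuous b) (h : Deg.deg (PhiS D a b s) D.N ≠ 0) :
    ∃ x ∈ D.N, a (D.ι x) = 0 ∧ b (D.ι x) = 0 ∧ D.o x + s = 0 := by
  have : Nontrivial E := D.nontrivial
  by_contra hne
  push Not at hne
  have key : ∀ x ∈ D.N, PhiS D a b s x ≠ 0 := by
    intro x hx h0
    obtain ⟨h1, h2, h3⟩ := PhiS_eq_zero D h0
    exact hne x hx h1 h2 h3
  refine h (Deg.deg_zero ⟨D.compact, ⟨D.O, D.isOpen, D.sub, ?_⟩, fun x hx =>
    key x (D.compact.isClosed.frontier_subset hx)⟩ key)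
  exact D.e.continuous.comp_continuousOn
    (((ha.comp_continuousOn D.cι).prodMk (hb.comp_continuousOn D.cι)).prodMk
      (D.co.add continuousOn_const))

/-- The abstract contradiction.  `Ru w s`, `Rs w s`: `w` is a regular point (of the first, second
tree) with an admissible shift `s`; `Hs`: the points of the surface. -/
theorem main [FiniteDimensional ℝ E] (D : Data P E F) (Ru Rs : P → F → Prop) (Hs : Set P)
    (seg_u : ∀ q, 0 < D.du D.v q → ∃ (w : ℕ → P) (s : ℕ → F), Conv D.du D.v w ∧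
      Tendsto s atTop (𝓝 0) ∧ ∀ k, Ru (w k) (s k) ∧ SameArm D.du D.v q (w k))
    (seg_s : ∀ q, 0 < D.ds D.v q → ∃ (w : ℕ → P) (s : ℕ → F), Conv D.ds D.v w ∧
      Tendsto s atTop (𝓝 0) ∧ ∀ k, Rs (w k) (s k) ∧ SameArm D.ds D.v q (w k))
    (conn : ∀ x ∈ D.N, ∀ y ∈ D.N, ∀ w w₂ w' w₂' s s₂ s' s₂', Ru w s → Ru w₂ s₂ → Rs w' s' →
      Rs w₂' s₂' → D.du w (D.ι x) = 0 → D.ds w₂' (D.ι x) = 0 → D.o x + (s + s₂') = 0 →
      D.du w₂ (D.ι y) = 0 → D.ds w' (D.ι y) = 0 → D.o y + (s₂ + s') = 0 →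
      ∃ z ∈ Hs, D.du w z = 0 ∧ D.ds w' z = 0)
    (sing : ∀ a ∈ Hs, ∀ b ∈ Hs, ∀ c ∈ Hs, ∀ e ∈ Hs, SameArm D.du D.v a b →
      SameArm D.du D.v c e → SameArm D.ds D.v a c → SameArm D.ds D.v b e →
      SameArm D.du D.v a c ∨ SameArm D.ds D.v a b)
    {w₀ w₀' : ℕ → P} (h₀ : Conv D.du D.v w₀) (h₀' : Conv D.ds D.v w₀') {s₀ : ℕ → F}
    (hs₀ : Tendsto s₀ atTop (𝓝 0))
    (hdeg : ∃ᶠ k in atTop, Deg.deg (PhiS D (fun x => -rho D.du (w₀ k) D.v x)
      (fun x => -rho D.ds (w₀' k) D.v x) (s₀ k)) D.N ≠ 0) : False := by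
  classical
  have cu : ∀ v p, Continuous (rho D.du v p) := continuous_rho D.hu D.cu
  have cs : ∀ v p, Continuous (rho D.ds v p) := continuous_rho D.hs D.cs
  -- the first pair of arms
  obtain ⟨k, hk, hk'⟩ := (hdeg.and_eventually (cmp D h₀ h₀' hs₀)).exists
  rw [hk'] at hk
  obtain ⟨p, hp⟩ : ∃ p, p = w₀ k := ⟨_, rfl⟩
  obtain ⟨p', hp'⟩ : ∃ p', p' = w₀' k := ⟨_, rfl⟩
  have hpos : 0 < D.du D.v p := hp ▸ h₀.pos k
  have hpos' : 0 < D.ds D.v p' := hp' ▸ h₀'.pos k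
  rw [← hp, ← hp'] at hk
  -- the second pair of arms
  obtain ⟨x, hx, hx1, hx2, hx3⟩ := D.sum_rule hk
  rw [← D.swap_dg] at hx3
  obtain ⟨y, hy, hy1, hy2, hy3⟩ := D.swap.sum_rule hx3
  rw [D.swap_dg] at hy3
  change 0 < D.ds D.v (D.ι y) at hy1
  change ¬ SameArm D.ds D.v p' (D.ι y) at hy2
  change D.dg (D.ι x) (D.ι y) ≠ 0 at hy3
  -- zeros of exact types
  have zero : ∀ q q', 0 < D.du D.v q → 0 < D.ds D.v q' → D.dg q q' ≠ 0 →
      ∃ w w' s s' z, Ru w s ∧ Rs w' s' ∧ SameArm D.du D.v q w ∧ SameArm D.ds D.v q' w' ∧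
        z ∈ D.N ∧ D.du w (D.ι z) = 0 ∧ D.ds w' (D.ι z) = 0 ∧ D.o z + (s + s') = 0 := by
    intro q q' hq hq' hd
    obtain ⟨w, s, hw, hs, hw2⟩ := seg_u q hq
    obtain ⟨w', s', hw', hs', hw2'⟩ := seg_s q' hq'
    have hss : Tendsto (fun k => s k + s' k) atTop (𝓝 0) := by
      have h1 := hs.add hs'
      rwa [add_zero] at h1
    obtain ⟨j, hj⟩ := (cmp D hw hw' hss).exists
    have h1 : D.dg (w j) (w' j) = D.dg q q' := by
      unfold Data.dg
      rw [rho_congr D.hu (hw2 j).2, rho_congr D.hs (hw2' j).2]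
    rw [h1] at hj
    rw [← hj] at hd
    obtain ⟨z, hz, hz1, hz2, hz3⟩ := exists_zero D ((cu _ _).neg) ((cs _ _).neg) hd
    refine ⟨w j, w' j, s j, s' j, z, (hw2 j).1, (hw2' j).1, (hw2 j).2, (hw2' j).2, hz, ?_, ?_,
      hz3⟩
    · rw [← rho_eq_zero_iff D.hu _ D.v]
      exact neg_eq_zero.1 hz1
    · rw [← rho_eq_zero_iff D.hs _ D.v]
      exact neg_eq_zero.1 hz2
  obtain ⟨w1, w1', s1, s1', z1, r1, r1', a1, a1', hz1, u1, v1, o1⟩ := zero p p' hpos hpos' hk
  obtain ⟨w2, w2', s2, s2', z2, r2, r2', a2, a2', hz2, u2, v2, o2⟩ := zero _ _ hx1 hy1 hy3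
  obtain ⟨a, ha, ha1, ha2⟩ := conn z1 hz1 z1 hz1 w1 w1 w1' w1' s1 s1 s1' s1' r1 r1 r1' r1'
    u1 v1 o1 u1 v1 o1
  obtain ⟨b, hb, hb1, hb2⟩ := conn z1 hz1 z2 hz2 w1 w2 w2' w1' s1 s2 s2' s1' r1 r2 r2' r1'
    u1 v1 o1 u2 v2 o2
  obtain ⟨c, hc, hc1, hc2⟩ := conn z2 hz2 z1 hz1 w2 w1 w1' w2' s2 s1 s1' s2' r2 r1 r1' r2'
    u2 v2 o2 u1 v1 o1
  obtain ⟨e, he, he1, he2⟩ := conn z2 hz2 z2 hz2 w2 w2 w2' w2' s2 s2 s2' s2' r2 r2 r2' r2'
    u2 v2 o2 u2 v2 o2
  have A1 := sameArm_trans D.hu (sameArm_symm D.hu a1) a1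
  have A2 := sameArm_trans D.hu (sameArm_symm D.hu a2) a2
  have A1' := sameArm_trans D.hs (sameArm_symm D.hs a1') a1'
  have A2' := sameArm_trans D.hs (sameArm_symm D.hs a2') a2'
  rcases sing a ha b hb c hc e he (sameArm_of_zero D.hu ha1 hb1 A1)
    (sameArm_of_zero D.hu hc1 he1 A2) (sameArm_of_zero D.hs ha2 hc2 A1')
    (sameArm_of_zero D.hs hb2 he2 A2') with h | h
  · have h2 : SameArm D.du D.v w1 w2 :=
      sameArm_of_zero D.hu (by rw [D.hu.symm]; exact ha1) (by rw [D.hu.symm]; exact hc1) h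
    exact hx2 (sameArm_trans D.hu (sameArm_trans D.hu a1 h2) (sameArm_symm D.hu a2))
  · have h2 : SameArm D.ds D.v w1' w2' :=
      sameArm_of_zero D.hs (by rw [D.hs.symm]; exact ha2) (by rw [D.hs.symm]; exact hb2) h
    exact hy2 (sameArm_trans D.hs (sameArm_trans D.hs a1' h2) (sameArm_symm D.hs a2'))

end Pool.Agent.ANO5.End
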